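import Mathlib

/-!
# Combinatorics of the tower
-/

open Set Filter

namespace Pool.Agent.H62.Gamma

/-- the trace of `z` on `{0,…,k-1}` -/
noncomputable def tr (z : Set ℕ) (k : ℕ) : Finset ℕ := by
  classical exact (Finset.range k).filter (fun n => n ∈ z)

lemma mem_tr {z : Set ℕ} {k n : ℕ} : n ∈ tr z k ↔ n < k ∧ n ∈ z := by
  classical
  unfold tr
  simp

/-- codes of clopen subsets of the Cantor space of all subsets of `ℕ` -/
abbrev Code := ℕ × Finset (Finset ℕ)

/-- the clopen set of a code -/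
def Cl (c : Code) : Set (Set ℕ) := {z | tr z c.1 ∈ c.2}

/-- inclusion modulo finite sets -/
def AlmSub (a b : Set ℕ) : Prop := (a \ b).Finite

lemma AlmSub.refl (a : Set ℕ) : AlmSub a a := by
  unfold AlmSub; rw [sdiff_self]; exact finite_empty

lemma AlmSub.trans {a b c : Set ℕ} (h : AlmSub a b) (h' : AlmSub b c) : AlmSub a c := by
  unfold AlmSub at *
  refine (h.union h').subset ?_
  rintro n ⟨h1, h2⟩
  by_cases hb : n ∈ b
  · exact Or.inr ⟨hb, h2⟩
  · exact Or.inl ⟨h1, hb⟩

lemma AlmSub.of_subset {a b : Set ℕ} (h : a ⊆ b) : AlmSub a b := by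
  unfold AlmSub; rw [sdiff_eq_empty.mpr h]; exact finite_empty

/-- The basic step of the construction: a family of clopen sets covering all finite families of
finite sets has a subsequence which converges on all sets almost contained in a suitable infinite
subset of a given infinite set. -/
lemma step {β : Type*} (b : ℕ → β) (W : ℕ → Set β) (D : ℕ → Code)
    (hcov : ∀ (j : ℕ) (T : Finset (Finset ℕ)), ∃ n, (∀ i ≤ j, b i ∈ W n) ∧
      ∀ s ∈ T, (s : Set ℕ) ∈ Cl (D n)) {y : Set ℕ} (hy : y.Infinite) :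
    ∃ y' ⊆ y, y'.Infinite ∧ ∃ m : ℕ → ℕ, (∀ i, ∀ᶠ k in atTop, b i ∈ W (m k)) ∧
      ∀ z, AlmSub z y' → ∀ᶠ k in atTop, z ∈ Cl (D (m k)) := by
  choose N hN1 hN2 using hcov
  -- block boundaries
  let nxt : ℕ → ℕ → ℕ := fun j K => N j (Finset.range K).powerset
  let K : ℕ → ℕ := fun j => Nat.rec 0 (fun j K => max (D (nxt j K)).1 (K + 1)) j
  have hK : ∀ j, K (j + 1) = max (D (nxt j (K j))).1 (K j + 1) := fun j => rfl
  have hKmono : StrictMono K := strictMono_nat_of_lt_succ (fun j => by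
    rw [hK]; exact lt_of_lt_of_le (Nat.lt_succ_self _) (le_max_right _ _))
  let M : ℕ → ℕ := fun j => nxt j (K j)
  have hM1 : ∀ j, ∀ i ≤ j, b i ∈ W (M j) := fun j i hi => hN1 _ _ i hi
  have hM2 : ∀ j, ∀ z : Set ℕ, (∀ n, K j ≤ n → n < K (j + 1) → n ∉ z) → z ∈ Cl (D (M j)) := by
    intro j z hz
    have h1 := hN2 j (Finset.range (K j)).powerset (tr z (K j)) (by
      rw [Finset.mem_powerset]
      intro n hn
      exact Finset.mem_range.mpr (mem_tr.mp hn).1)
    change tr z (D (M j)).1 ∈ (D (M j)).2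
    change tr ((tr z (K j) : Finset ℕ) : Set ℕ) (D (M j)).1 ∈ (D (M j)).2 at h1
    have h2 : tr ((tr z (K j) : Finset ℕ) : Set ℕ) (D (M j)).1 = tr z (D (M j)).1 := by
      ext n
      rw [mem_tr, mem_tr, Finset.mem_coe, mem_tr]
      constructor
      · rintro ⟨h3, -, h4⟩; exact ⟨h3, h4⟩
      · rintro ⟨h3, h4⟩
        refine ⟨h3, ?_, h4⟩
        by_contra hcon
        push Not at hcon
        have h5 : n < K (j + 1) := by
          rw [hK]; exact lt_of_lt_of_le h3 (le_max_left _ _)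
        exact hz n hcon h5 h4
    rwa [h2] at h1
  -- parity classes of blocks
  let E : ℕ → Set ℕ := fun p => {n | ∃ j, j % 2 = p ∧ K j ≤ n ∧ n < K (j + 1)}
  have hcovE : ∀ n, n ∈ E 0 ∨ n ∈ E 1 := by
    intro n
    have hex : ∃ j, n < K (j + 1) := ⟨n, lt_of_lt_of_le (Nat.lt_succ_self n) (hKmono.id_le (n + 1))⟩
    classical
    let j := Nat.find hex
    have hj : n < K (j + 1) := Nat.find_spec hex
    have hj2 : K j ≤ n := by
      rcases Nat.eq_zero_or_pos j with h | h
      · rw [h]; exact Nat.zero_le _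
      · obtain ⟨i, hi⟩ : ∃ i, j = i + 1 := ⟨j - 1, by omega⟩
        have h3 : ¬ n < K (i + 1) := Nat.find_min hex (by omega : i < j)
        rw [hi]; omega
    rcases Nat.mod_two_eq_zero_or_one j with h | h
    · exact Or.inl ⟨j, h, hj2, hj⟩
    · exact Or.inr ⟨j, h, hj2, hj⟩
  -- the final argument for a parity class
  have key : ∀ p q : ℕ, q < 2 → p ≠ q → (y ∩ E p).Infinite → ∃ y' ⊆ y, y'.Infinite ∧
      ∃ m : ℕ → ℕ, (∀ i, ∀ᶠ k in atTop, b i ∈ W (m k)) ∧
      ∀ z, AlmSub z y' → ∀ᶠ k in atTop, z ∈ Cl (D (m k)) := by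
    intro p q hq hpq hinf
    refine ⟨y ∩ E p, inter_subset_left, hinf, fun k => M (2 * k + q), fun i => ?_, fun z hz => ?_⟩
    · filter_upwards [eventually_ge_atTop i] with k hk
      exact hM1 _ i (by omega)
    · obtain ⟨B, hB⟩ := hz.bddAbove
      filter_upwards [eventually_gt_atTop B] with k hk
      apply hM2
      intro n h1 h2 h3
      have h4 : 2 * k + q ≤ n := le_trans (hKmono.id_le _) h1
      have h5 : n ∉ y ∩ E p := by
        rintro ⟨-, j, hj, hj1, hj2⟩
        have h6 : j < 2 * k + q + 1 := hKmono.lt_iff_lt.mp (lt_of_le_of_lt hj1 h2)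
        have h7 : 2 * k + q < j + 1 := hKmono.lt_iff_lt.mp (lt_of_le_of_lt h1 hj2)
        have h8 : j = 2 * k + q := by omega
        omega
      have := hB ⟨h3, h5⟩
      omega
  have hsplit : y = (y ∩ E 0) ∪ (y ∩ E 1) := by
    ext n
    constructor
    · intro hn
      rcases hcovE n with h | h
      · exact Or.inl ⟨hn, h⟩
      · exact Or.inr ⟨hn, h⟩
    · rintro (h | h) <;> exact h.1
  rw [hsplit, infinite_union] at hy
  rcases hy with h | h
  · exact key 0 1 (by norm_num) (by norm_num) h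
  · exact key 1 0 (by norm_num) (by norm_num) h

/-- an infinite set splits into two infinite parts -/
lemma split {y : Set ℕ} (hy : y.Infinite) : ∃ y' ⊆ y, y'.Infinite ∧ (y \ y').Infinite := by
  obtain ⟨t, u, h1, h2, h3⟩ := hy.exists_union_disjoint_cardinal_eq_of_infinite
  have hiff : t.Infinite ↔ u.Infinite := by
    rw [← infinite_coe_iff, ← infinite_coe_iff, ← Cardinal.aleph0_le_mk_iff,
      ← Cardinal.aleph0_le_mk_iff, h3]
  have ht : t.Infinite := by
    rw [← h1, infinite_union] at hy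
    rcases hy with h | h
    · exact h
    · exact hiff.mpr h
  refine ⟨t, by rw [← h1]; exact subset_union_left, ht, ?_⟩
  have h5 : u ⊆ y \ t := by
    intro n hn
    refine ⟨by rw [← h1]; exact Or.inr hn, fun h => ?_⟩
    exact disjoint_left.mp h2 h hn
  exact (hiff.mp ht).mono h5

/-- countable almost decreasing families of infinite sets have infinite almost lower bounds -/
lemma pseudo {ι : Type*} [LinearOrder ι] [Countable ι] (f : ι → Set ℕ)
    (hinf : ∀ i, (f i).Infinite) (hdec : ∀ i j, i < j → AlmSub (f j) (f i)) :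
    ∃ y : Set ℕ, y.Infinite ∧ ∀ i, AlmSub y (f i) := by
  rcases isEmpty_or_nonempty ι with he | hne
  · exact ⟨univ, infinite_univ, fun i => he.elim i⟩
  · obtain ⟨e, he⟩ := exists_surjective_nat ι
    have hdec' : ∀ i j, i ≤ j → AlmSub (f j) (f i) := by
      intro i j h
      rcases h.eq_or_lt with rfl | h
      · exact AlmSub.refl _
      · exact hdec i j h
    have hmax : ∀ n : ℕ, ∃ M : ι, ∀ i ≤ n, e i ≤ M := by
      intro n
      obtain ⟨M, hM⟩ := ((finite_Iic n).image e).bddAbove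
      exact ⟨M, fun i hi => hM ⟨i, hi, rfl⟩⟩
    have hch : ∀ n : ℕ, ∃ a, n ≤ a ∧ ∀ i ≤ n, a ∈ f (e i) := by
      intro n
      obtain ⟨M, hM⟩ := hmax n
      have h1 : (⋃ i ∈ Iic n, (f M \ f (e i))).Finite :=
        (finite_Iic n).biUnion (fun i hi => hdec' _ _ (hM i hi))
      have h2 : (f M \ ⋃ i ∈ Iic n, (f M \ f (e i))).Infinite := (hinf M).sdiff h1
      obtain ⟨a, ha, hna⟩ := h2.exists_gt n
      refine ⟨a, hna.le, fun i hi => ?_⟩
      by_contra hcon
      apply ha.2
      rw [mem_iUnion₂]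
      exact ⟨i, hi, ha.1, hcon⟩
    choose a ha1 ha2 using hch
    refine ⟨range a, ?_, fun i => ?_⟩
    · apply infinite_of_not_bddAbove
      rintro ⟨B, hB⟩
      have := hB ⟨B + 1, rfl⟩
      have := ha1 (B + 1)
      omega
    · obtain ⟨n, rfl⟩ := he i
      refine ((finite_Iio n).image a).subset ?_
      rintro _ ⟨⟨k, rfl⟩, hk⟩
      refine ⟨k, ?_, rfl⟩
      by_contra hcon
      exact hk (ha2 k n (not_lt.mp hcon))

end Pool.Agent.H62.Gamma
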