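import Mathlib

/-!
# Definitions
-/

namespace Pool.Agent.H62.Gamma

/-- `C_p(X)`: the continuous real-valued functions on `X` with the topology of pointwise
convergence, that is, the subspace topology from the product `X → ℝ`. -/
abbrev Cp (X : Type) [TopologicalSpace X] : Type := {f : X → ℝ // Continuous f}

/-- every subspace is separable -/
def HereditarilySeparable (Z : Type) [TopologicalSpace Z] : Prop :=
  ∀ S : Set Z, TopologicalSpace.SeparableSpace S

end Pool.Agent.H62.Gamma
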