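import Pool.Agent.H62.Gamma.Space
import Pool.Agent.H62.Gamma.Defs

/-!
# Function spaces
-/

open Set Filter Topology

namespace Pool.Agent.H62.Gamma

/-- the selection property -/
def GammaProp (X : Type) [TopologicalSpace X] : Prop :=
  ∀ (J : Type) (V : J → Set X), (∀ j, IsOpen (V j)) → (∀ F : Finset X, ∃ j, (F : Set X) ⊆ V j) →
    ∃ s : ℕ → J, ∀ y : X, ∀ᶠ k in atTop, y ∈ V (s k)

/-- the selection property gives the Frechet-Urysohn property of the function space -/
theorem frechetUrysohn_Cp {X : Type} [TopologicalSpace X] [T1Space X] [Infinite X]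
    (h : GammaProp X) : FrechetUrysohnSpace (Cp X) := by
  constructor
  intro A f hf
  let z : ℕ → X := Infinite.natEmbedding X
  have hz : Function.Injective z := (Infinite.natEmbedding X).injective
  let V : ℕ × A → Set X := fun p => {y | |p.2.1.1 y - f.1 y| < 1 / ((p.1 : ℝ) + 1)} ∩ {z p.1}ᶜ
  obtain ⟨s, hs⟩ := h (ℕ × A) V (by
    intro p
    apply IsOpen.inter
    · exact isOpen_lt ((p.2.1.2.sub f.2).abs) continuous_const
    · exact isOpen_compl_singleton) (by
    intro F
    have h1 : ∃ n, z n ∉ F := by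
      by_contra hcon
      push Not at hcon
      have : Function.Injective (fun n => (⟨z n, hcon n⟩ : F)) := fun a b hab =>
        hz (congrArg Subtype.val hab)
      exact not_injective_infinite_finite _ this
    obtain ⟨n, hn⟩ := h1
    have h2 : ∀ᶠ g in 𝓝 f, ∀ y ∈ F, |g.1 y - f.1 y| < 1 / ((n : ℝ) + 1) := by
      rw [Filter.eventually_all_finset]
      intro y _
      have hc : Continuous (fun g : Cp X => |g.1 y - f.1 y|) :=
        (((continuous_apply y).comp continuous_subtype_val).sub continuous_const).abs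
      apply hc.continuousAt.eventually (gt_mem_nhds _)
      simp only [sub_self, abs_zero]
      positivity
    obtain ⟨g, hg1, hg2⟩ := mem_closure_iff_nhds.mp hf _ h2
    refine ⟨(n, ⟨g, hg2⟩), fun y hy => ⟨hg1 y hy, ?_⟩⟩
    rintro rfl
    exact hn hy)
  refine ⟨fun k => (s k).2.1, fun k => (s k).2.2, ?_⟩
  rw [tendsto_subtype_rng, tendsto_pi_nhds]
  intro y
  rw [Metric.tendsto_atTop']
  intro ε hε
  obtain ⟨M, hM⟩ := exists_nat_one_div_lt hε
  have h3 : ∀ᶠ k in atTop, ∀ m ∈ Finset.range M, z m ∈ V (s k) := by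
    rw [Filter.eventually_all_finset]
    intro m _
    exact hs (z m)
  obtain ⟨N, hN⟩ := ((h3.and (hs y))).exists_forall_of_atTop
  refine ⟨N, fun k hk => ?_⟩
  obtain ⟨h4, h5⟩ := hN k hk.le
  have h6 : M ≤ (s k).1 := by
    by_contra hcon
    push Not at hcon
    exact (h4 _ (Finset.mem_range.mpr hcon)).2 rfl
  have h7 : |(s k).2.1.1 y - f.1 y| < 1 / (((s k).1 : ℝ) + 1) := h5.1
  rw [Real.dist_eq]
  refine h7.trans_le (le_trans ?_ hM.le)
  have : (M : ℝ) ≤ (s k).1 := by exact_mod_cast h6
  gcongr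

section

variable {I : Type} {x : I → Set ℕ}

lemma exists_tr_ne {z w : Set ℕ} (h : z ≠ w) : ∃ k, tr z k ≠ tr w k := by
  by_contra hcon
  push Not at hcon
  apply h
  ext n
  have := hcon (n + 1)
  constructor
  · intro hn
    have h1 : n ∈ tr z (n + 1) := mem_tr.mpr ⟨Nat.lt_succ_self n, hn⟩
    rw [this] at h1
    exact (mem_tr.mp h1).2
  · intro hn
    have h1 : n ∈ tr w (n + 1) := mem_tr.mpr ⟨Nat.lt_succ_self n, hn⟩
    rw [← this] at h1
    exact (mem_tr.mp h1).2

lemma isClopen_Nb (z : Set ℕ) (k : ℕ) : IsClopen (X := Sp x) (Nb x z k) := by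
  constructor
  · constructor
    exact isOpen_trace (x := x) k (fun t => ¬ t = tr z k)
  · exact isOpen_trace (x := x) k (fun t => t = tr z k)

/-- an isolated point is clopen -/
lemma isClopen_inr (hinf : ∀ i, (x i).Infinite) (i : I) :
    IsClopen (X := Sp x) {(Sum.inr i : Y I)} := by
  constructor
  · constructor
    intro s _
    have hne : x i ≠ (s : Set ℕ) := by
      intro h
      apply hinf i
      rw [h]
      exact s.finite_toSet
    obtain ⟨k, hk⟩ := exists_tr_ne hne
    refine ⟨k, fun y hy h => hk ?_⟩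
    rw [h] at hy
    exact hy
  · apply isOpen_of_inr
    intro s h
    cases h

lemma t35 (hev : Function.Injective (ev x)) (hinf : ∀ i, (x i).Infinite) : T35Space (Sp x) := by
  have h0 : T1Space (Sp x) := by
    constructor
    intro y
    constructor
    intro s hs
    have hne : ev x y ≠ (s : Set ℕ) := by
      intro h
      exact hs (hev (a₂ := y) (by rw [h]; rfl))
    obtain ⟨k, hk⟩ := exists_tr_ne hne
    refine ⟨k, fun w hw h => hk ?_⟩
    rw [← h]
    exact hw
  have h1 : CompletelyRegularSpace (Sp x) := by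
    apply CompletelyRegularSpace.of_isTopologicalBasis_clopens
    apply TopologicalSpace.isTopologicalBasis_of_isOpen_of_nhds
    · intro u hu; exact hu.2
    · intro a U ha hU
      rcases a with s | i
      · obtain ⟨k, hk⟩ := hU s ha
        exact ⟨Nb x s k, isClopen_Nb _ _, rfl, hk⟩
      · refine ⟨{(Sum.inr i : Y I)}, isClopen_inr hinf i, rfl, ?_⟩
        rintro _ rfl
        exact ha
  exact {}

/-- functions depending on a finite trace are continuous -/
lemma continuous_trace (k : ℕ) (r : Finset ℕ → ℝ) :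
    Continuous (fun y : Sp x => r (tr (ev x y) k)) := by
  constructor
  intro W _
  exact isOpen_trace (x := x) k (fun t => r t ∈ W)

lemma separable_Cp (hev : Function.Injective (ev x)) :
    TopologicalSpace.SeparableSpace (Cp (Sp x)) := by
  classical
  let g : ℕ × (Finset ℕ →₀ ℚ) → Cp (Sp x) := fun p =>
    ⟨fun y => ((p.2 (tr (ev x y) p.1) : ℚ) : ℝ), continuous_trace p.1 (fun t => ((p.2 t : ℚ) : ℝ))⟩
  refine ⟨range g, countable_range g, ?_⟩
  rw [dense_iff_inter_open]
  rintro W hW ⟨f, hf⟩
  obtain ⟨O, hO, rfl⟩ := isOpen_induced_iff.mp hW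
  obtain ⟨F, u, hu, hsub⟩ := isOpen_pi_iff.mp hO f.1 hf
  -- a level separating the points of `F`
  have hk : ∃ k, ∀ y ∈ F, ∀ w ∈ F, y ≠ w → tr (ev x y) k ≠ tr (ev x w) k := by
    have h1 : ∀ᶠ k in atTop, ∀ y ∈ F, ∀ w ∈ F, y ≠ w → tr (ev x y) k ≠ tr (ev x w) k := by
      rw [Filter.eventually_all_finset]
      intro y _
      rw [Filter.eventually_all_finset]
      intro w _
      by_cases hyw : y = w
      · exact Eventually.of_forall (fun k h => absurd hyw h)
      · obtain ⟨k, hk⟩ := exists_tr_ne (fun h => hyw (hev h))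
        filter_upwards [eventually_ge_atTop k] with l hl _ h
        exact hk (tr_mono hl h)
    exact h1.exists
  obtain ⟨k, hk⟩ := hk
  have hq : ∀ y, ∃ q : ℚ, y ∈ F → (q : ℝ) ∈ u y := by
    intro y
    by_cases hy : y ∈ F
    · obtain ⟨q, hq⟩ := Rat.denseRange_cast.exists_mem_open (hu y hy).1 ⟨_, (hu y hy).2⟩
      exact ⟨q, fun _ => hq⟩
    · exact ⟨0, fun h => absurd h hy⟩
  choose q hq using hq
  let r : Finset ℕ →₀ ℚ := ∑ y ∈ F, Finsupp.single (tr (ev x y) k) (q y)
  have hr : ∀ y ∈ F, r (tr (ev x y) k) = q y := by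
    intro y hy
    simp only [r, Finsupp.finsetSum_apply]
    rw [Finset.sum_eq_single y]
    · simp
    · intro w hw hwy
      rw [Finsupp.single_apply, if_neg]
      exact hk w hw y hy hwy
    · intro h; exact absurd hy h
  refine ⟨g (k, r), ?_, ⟨_, rfl⟩⟩
  apply hsub
  intro y hy
  change ((r (tr (ev x y) k) : ℚ) : ℝ) ∈ u y
  rw [hr y hy]
  exact hq y hy

/-- the function space is not hereditarily separable -/
lemma not_hereditarilySeparable (hinf : ∀ i, (x i).Infinite) (hI : Uncountable I) :
    ¬ HereditarilySeparable (Cp (Sp x)) := by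
  classical
  intro h
  let χ : I → Cp (Sp x) := fun i => ⟨Set.indicator {(Sum.inr i : Y I)} 1,
    continuous_const.indicator (by
      have := (isClopen_inr hinf i).frontier_eq
      intro a ha
      rw [this] at ha
      exact absurd ha (notMem_empty a))⟩
  have hχ1 : ∀ i, (χ i).1 (Sum.inr i : Y I) = 1 := by
    intro i
    exact Set.indicator_of_mem (s := {(Sum.inr i : Y I)}) (mem_singleton _) _
  have hχ0 : ∀ i j, i ≠ j → (χ j).1 (Sum.inr i : Y I) = 0 := by
    intro i j hij
    simp only [χ]
    apply Set.indicator_of_notMem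
    intro h
    exact hij (Sum.inr.inj h)
  obtain ⟨t, ht, hd⟩ := (h (range χ)).exists_countable_dense
  have hmem : ∀ i, (⟨χ i, ⟨i, rfl⟩⟩ : range χ) ∈ t := by
    intro i
    have hO : IsOpen {f : range χ | 1 / 2 < f.1.1 (Sum.inr i : Y I)} := by
      apply isOpen_lt continuous_const
      exact (continuous_apply _).comp (continuous_subtype_val.comp continuous_subtype_val)
    obtain ⟨⟨_, j, rfl⟩, h1, h2⟩ := hd.inter_open_nonempty _ hO ⟨⟨χ i, ⟨i, rfl⟩⟩, by
      change (1 / 2 : ℝ) < (χ i).1 (Sum.inr i : Y I)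
      rw [hχ1]; norm_num⟩
    have h3 : (1 / 2 : ℝ) < (χ j).1 (Sum.inr i : Y I) := h1
    by_cases hij : i = j
    · subst hij; exact h2
    · rw [hχ0 i j hij] at h3
      norm_num at h3
  have hinj : Function.Injective (fun i => (⟨⟨χ i, ⟨i, rfl⟩⟩, hmem i⟩ : t)) := by
    intro i j hij
    by_contra hne
    have h1 : χ i = χ j := congrArg (fun f => f.1.1) hij
    have h2 := hχ1 i
    rw [h1, hχ0 i j hne] at h2
    norm_num at h2
  have : Countable t := ht.to_subtype
  have : Countable I := hinj.countable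
  exact not_countable (α := I) this

end

end Pool.Agent.H62.Gamma
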