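import Pool.Agent.H62.Gamma.Cp

/-!
# The example
-/

open Set Filter Topology Cardinal

namespace Pool.Agent.H62.Gamma

lemma ev_injective {I : Type} [LinearOrder I] {φ : I → Data I} {x : I → Set ℕ}
    (hx : ∀ ξ, Spec φ x ξ (x ξ)) : Function.Injective (ev x) := by
  have hne : ∀ i j : I, i < j → x i ≠ x j := by
    intro i j hij h
    have := ((hx j).2.1 i hij).2
    rw [h, sdiff_self] at this
    exact this finite_empty
  rintro (s | i) (t | j) h
  · have : (s : Set ℕ) = (t : Set ℕ) := h
    rw [Finset.coe_inj.mp this]
  · have h1 : (s : Set ℕ) = x j := h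
    exact absurd (h1 ▸ s.finite_toSet) (hx j).1
  · have h1 : x i = (t : Set ℕ) := h
    exact absurd (h1.symm ▸ t.finite_toSet) (hx i).1
  · have h1 : x i = x j := h
    rcases lt_trichotomy i j with h2 | h2 | h2
    · exact absurd h1 (hne i j h2)
    · rw [h2]
    · exact absurd h1.symm (hne j i h2)

lemma exists_surj {I : Type} (hI : #I = continuum) : ∃ φ : I → Data I, Function.Surjective φ := by
  have hinf : Infinite I := by
    rw [← Cardinal.aleph0_le_mk_iff, hI]; exact aleph0_le_continuum
  have h1 : #(Code × Finset I) = continuum := by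
    rw [mk_prod, lift_id, lift_id, mk_finset_of_infinite, hI]
    apply mul_eq_right aleph0_le_continuum
    · exact (mk_le_aleph0 (α := Code)).trans aleph0_le_continuum
    · exact mk_ne_zero _
  have h2 : #(Data I) = continuum := by
    have h3 : #(ℕ → Code × Finset I) = continuum := by
      rw [mk_arrow, lift_id, lift_id, h1, mk_nat, continuum_power_aleph0]
    have h4 : #(Option I) = continuum := by
      rw [mk_option, hI, add_one_eq aleph0_le_continuum]
    rw [mk_prod, lift_id, lift_id, h3, h4, continuum_mul_self]
  obtain ⟨e⟩ := Cardinal.eq.mp (h2.trans hI.symm)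
  exact ⟨e.symm, e.symm.surjective⟩

/-- Under the continuum hypothesis there is a Tychonoff space whose function space is separable and
Frechet-Urysohn but not hereditarily separable. -/
theorem main (hCH : (aleph 1 : Cardinal.{0}) = continuum) : ∃ (X : Type) (_ : TopologicalSpace X), T35Space X ∧
    TopologicalSpace.SeparableSpace (Cp X) ∧ FrechetUrysohnSpace (Cp X) ∧
    ¬ HereditarilySeparable (Cp X) := by
  let I : Type := continuum.ord.ToType
  have hI : #I = continuum := mk_ord_toType _
  have hIio : ∀ i : I, (Iio i).Countable := by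
    intro i
    have h1 : #(Iio i) < continuum := by
      have := mk_Iio_lt i (by rw [hI, Ordinal.type_toType])
      rwa [hI] at this
    have h2 : #(Iio i) < aleph 1 := h1.trans_eq hCH.symm
    rw [← succ_aleph0, Order.lt_succ_iff] at h2
    exact le_aleph0_iff_set_countable.mp h2
  have hne : Nonempty I := by
    rw [← mk_ne_zero_iff, hI]; exact continuum_ne_zero
  obtain ⟨φ, hφ⟩ := exists_surj hI
  obtain ⟨x, hx⟩ := exists_tower hIio φ
  have hev := ev_injective hx
  have hinf : ∀ i, (x i).Infinite := fun i => (hx i).1
  have ht := t35 hev hinf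
  have hinfS : Infinite (Sp x) := Infinite.of_injective (fun n : ℕ => (Sum.inl {n} : Y I)) (by
    intro a b h
    exact Finset.singleton_injective (Sum.inl.inj h))
  have hunc : Uncountable I := by
    rw [← aleph0_lt_mk_iff, hI]; exact aleph0_lt_continuum
  refine ⟨Sp x, inferInstance, ht, separable_Cp hev, ?_, not_hereditarilySeparable hinf hunc⟩
  apply frechetUrysohn_Cp
  intro J V hV hcov
  exact gamma hIio hφ hx V hV hcov

end Pool.Agent.H62.Gamma
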