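import Pool.Agent.H62.Gamma.Tower

/-!
# The space and its selection property
-/

open Set Filter

namespace Pool.Agent.H62.Gamma

variable {I : Type}

/-- the space: the points of `I` are isolated, and the finite sets have the neighbourhoods coming
from the Cantor space -/
def Sp (_ : I → Set ℕ) : Type := Y I

/-- basic neighbourhoods -/
def Nb (x : I → Set ℕ) (z : Set ℕ) (k : ℕ) : Set (Y I) := {y | tr (ev x y) k = tr z k}

lemma tr_mono {z w : Set ℕ} {k l : ℕ} (hkl : k ≤ l) (h : tr z l = tr w l) : tr z k = tr w k := by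
  ext n
  rw [mem_tr, mem_tr]
  constructor
  · rintro ⟨h1, h2⟩
    have : n ∈ tr z l := mem_tr.mpr ⟨by omega, h2⟩
    rw [h] at this
    exact ⟨h1, (mem_tr.mp this).2⟩
  · rintro ⟨h1, h2⟩
    have : n ∈ tr w l := mem_tr.mpr ⟨by omega, h2⟩
    rw [← h] at this
    exact ⟨h1, (mem_tr.mp this).2⟩

instance (x : I → Set ℕ) : TopologicalSpace (Sp x) where
  IsOpen U := ∀ s : Finset ℕ, (Sum.inl s : Y I) ∈ U → ∃ k, Nb x s k ⊆ U
  isOpen_univ := fun s _ => ⟨0, subset_univ _⟩
  isOpen_inter := by
    rintro U V hU hV s ⟨h1, h2⟩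
    obtain ⟨k, hk⟩ := hU s h1
    obtain ⟨l, hl⟩ := hV s h2
    refine ⟨max k l, fun y hy => ⟨hk ?_, hl ?_⟩⟩
    · exact tr_mono (le_max_left k l) hy
    · exact tr_mono (le_max_right k l) hy
  isOpen_sUnion := by
    rintro S hS s ⟨U, hU, hs⟩
    obtain ⟨k, hk⟩ := hS U hU s hs
    exact ⟨k, hk.trans (subset_sUnion_of_mem hU)⟩

lemma isOpen_iff {x : I → Set ℕ} {U : Set (Sp x)} :
    IsOpen U ↔ ∀ s : Finset ℕ, (Sum.inl s : Y I) ∈ U → ∃ k, Nb x s k ⊆ U := Iff.rfl

/-- every point set containing no finite set is open -/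
lemma isOpen_of_inr {x : I → Set ℕ} {U : Set (Sp x)} (h : ∀ s : Finset ℕ, (Sum.inl s : Y I) ∉ U) :
    IsOpen U := fun s hs => absurd hs (h s)

/-- sets determined by a finite trace are open -/
lemma isOpen_trace {x : I → Set ℕ} (k : ℕ) (P : Finset ℕ → Prop) :
    IsOpen (X := Sp x) {y : Y I | P (tr (ev x y) k)} := by
  intro s hs
  refine ⟨k, fun y hy => ?_⟩
  have h1 : tr (ev x y) k = tr (s : Set ℕ) k := hy
  change P (tr (ev x y) k)
  rw [h1]
  exact hs

/-- the code adapted to an open set and a finite subset of it -/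
lemma exists_code {x : I → Set ℕ} {U : Set (Sp x)} (hU : IsOpen U) (F : Finset (Y I))
    (hF : (F : Set (Y I)) ⊆ U) : ∃ c : Code × Finset I, (F : Set (Y I)) ⊆ VS x c ∧
      VS x c ⊆ (U : Set (Y I)) := by
  classical
  have h1 : ∀ s : Finset ℕ, ∃ k, (Sum.inl s : Y I) ∈ U → Nb x s k ⊆ U := by
    intro s
    by_cases hs : (Sum.inl s : Y I) ∈ U
    · obtain ⟨k, hk⟩ := hU s hs
      exact ⟨k, fun _ => hk⟩
    · exact ⟨0, fun h => absurd h hs⟩
  choose κ hκ using h1
  let k := F.toLeft.sup κ
  refine ⟨((k, F.toLeft.image (fun s : Finset ℕ => tr (s : Set ℕ) k)), F.toRight), ?_, ?_⟩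
  · rintro (s | i) hy
    · left
      change tr (s : Set ℕ) k ∈ F.toLeft.image (fun s : Finset ℕ => tr (s : Set ℕ) k)
      exact Finset.mem_image_of_mem _ (Finset.mem_toLeft.mpr hy)
    · right
      exact ⟨i, Finset.mem_toRight.mpr hy, rfl⟩
  · rintro y (hy | ⟨i, hi, rfl⟩)
    · change tr (ev x y) k ∈ F.toLeft.image (fun s : Finset ℕ => tr (s : Set ℕ) k) at hy
      obtain ⟨s, hs, hs2⟩ := Finset.mem_image.mp hy
      have hsF := Finset.mem_toLeft.mp hs
      apply hκ s (hF hsF)
      exact tr_mono (Finset.le_sup (f := κ) hs) hs2.symm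
    · exact hF (Finset.mem_toRight.mp hi)

/-- the selection property of the space -/
theorem gamma [LinearOrder I] [WellFoundedLT I] [Nonempty I] (hI : ∀ i : I, (Iio i).Countable)
    {φ : I → Data I} (hφ : Function.Surjective φ) {x : I → Set ℕ} (hx : ∀ ξ, Spec φ x ξ (x ξ))
    {J : Type*} (V : J → Set (Sp x)) (hV : ∀ j, IsOpen (V j))
    (hcov : ∀ F : Finset (Y I), ∃ j, (F : Set (Y I)) ⊆ V j) :
    ∃ s : ℕ → J, ∀ y : Y I, ∀ᶠ k in atTop, y ∈ V (s k) := by
  classical
  choose j hj using hcov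
  have hc := fun F : Finset (Y I) => exists_code (hV (j F)) F (hj F)
  choose c hc1 hc2 using hc
  -- enumeration of the points below `α`
  have hB : ∀ α : I, ∃ b : ℕ → Y I, BS α none = range b := fun α =>
    (countable_BS (hI α) none).exists_eq_range ⟨_, inl_mem_BS α _ ∅⟩
  choose b hb using hB
  let FF : I → ℕ → Finset (Y I) := fun α n => (Finset.range (n + 1)).image (b α)
  have hFF : ∀ α (F : Finset (Y I)), (F : Set (Y I)) ⊆ BS α none →
      ∃ n, F ⊆ FF α n := by
    intro α F
    induction F using Finset.induction_on with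
    | empty => intro _; exact ⟨0, Finset.empty_subset _⟩
    | insert y F hy ih =>
      intro hF
      rw [Finset.coe_insert, insert_subset_iff] at hF
      obtain ⟨n, hn⟩ := ih hF.2
      have hy := hF.1
      rw [hb α] at hy
      obtain ⟨m, hm⟩ := hy
      refine ⟨max n m, fun z hz => ?_⟩
      rcases Finset.mem_insert.mp hz with rfl | hz
      · refine Finset.mem_image.mpr ⟨m, ?_, hm⟩
        rw [Finset.mem_range]
        exact Nat.lt_succ_of_le (le_max_right n m)
      · obtain ⟨i, hi, hi2⟩ := Finset.mem_image.mp (hn hz)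
        refine Finset.mem_image.mpr ⟨i, ?_, hi2⟩
        rw [Finset.mem_range] at hi ⊢
        exact lt_of_lt_of_le hi (Nat.succ_le_succ (le_max_left n m))
  -- the stage at which the points below `α` are treated
  have hst : ∀ α : I, ∃ ξ, φ ξ = (fun n => c (FF α n), some α) := fun α => hφ _
  choose st hst using hst
  -- consequence at a stage
  have hlate : ∀ ξ β : I, ξ ≤ β → AlmSub (x β) (x ξ) := by
    intro ξ β h
    rcases h.eq_or_lt with rfl | h
    · exact AlmSub.refl _
    · exact ((hx β).2.1 ξ h).1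
  have hA : ∀ α, ∀ F : Finset (Y I), (∀ β, Sum.inr β ∈ F → β < α ∨ st α ≤ β) →
      ∃ n, (F : Set (Y I)) ⊆ VS x (c (FF α n)) := by
    intro α F hF
    obtain ⟨-, -, h3⟩ := hx (st α)
    rw [hst α] at h3
    obtain ⟨m, hm1, hm2⟩ := h3 (by
      intro G hG
      obtain ⟨n, hn⟩ := hFF α G (by
        intro y hy
        intro η h
        exact ⟨(hG hy η h).2 α rfl, fun i h => by cases h⟩)
      exact ⟨n, fun y hy => hc1 _ (hn hy)⟩)
    have hall : ∀ y ∈ F, ∀ᶠ k in atTop, y ∈ VS x (c (FF α (m k))) := by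
      rintro (s | β) hy
      · exact hm1 _ (inl_mem_BS _ _ _)
      · by_cases hlt : β < st α
        · apply hm1
          intro η h
          cases h
          refine ⟨hlt, fun i hi => ?_⟩
          cases hi
          rcases hF β hy with h | h
          · exact h
          · exact absurd hlt (not_lt.mpr h)
        · filter_upwards [hm2 (x β) (hlate _ _ (not_lt.mp hlt))] with k hk
          exact Or.inl hk
    have := (Filter.eventually_all_finset F).mpr hall
    obtain ⟨k, hk⟩ := this.exists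
    exact ⟨m k, fun y hy => hk y hy⟩
  -- iterate
  obtain ⟨α0⟩ := ‹Nonempty I›
  let al : ℕ → I := fun n => Nat.rec α0 (fun _ a => max a (st a)) n
  have hal : ∀ n, al (n + 1) = max (al n) (st (al n)) := fun n => rfl
  have hgood : ∀ F : Finset (Y I), ∃ n, ∀ β, Sum.inr β ∈ F → β < al n ∨ st (al n) ≤ β := by
    intro F
    by_contra hcon
    push Not at hcon
    choose β hβ1 hβ2 hβ3 using hcon
    have hmono : StrictMono β := strictMono_nat_of_lt_succ (fun n => by
      have h1 : β n < al (n + 1) := by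
        rw [hal]; exact lt_of_lt_of_le (hβ3 n) (le_max_right _ _)
      exact lt_of_lt_of_le h1 (hβ2 (n + 1)))
    have hinj : Function.Injective (fun n => (⟨Sum.inr (β n), hβ1 n⟩ : F)) := by
      intro a b hab
      have := congrArg Subtype.val hab
      exact hmono.injective (Sum.inr.inj this)
    exact not_injective_infinite_finite _ hinj
  let G : ℕ → Finset (Y I) := fun k => FF (al k.unpair.1) k.unpair.2
  have hG : ∀ F : Finset (Y I), ∃ k, (F : Set (Y I)) ⊆ VS x (c (G k)) := by
    intro F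
    obtain ⟨n, hn⟩ := hgood F
    obtain ⟨m, hm⟩ := hA (al n) F hn
    refine ⟨Nat.pair n m, ?_⟩
    simp only [G, Nat.unpair_pair]
    exact hm
  obtain ⟨ξ, hξ⟩ := hφ (fun k => c (G k), none)
  obtain ⟨-, -, h3⟩ := hx ξ
  rw [hξ] at h3
  obtain ⟨m, hm1, hm2⟩ := h3 (fun F _ => hG F)
  refine ⟨fun k => j (G (m k)), fun y => ?_⟩
  have hy : ∀ᶠ k in atTop, y ∈ VS x (c (G (m k))) := by
    rcases y with s | β
    · exact hm1 _ (inl_mem_BS _ _ _)
    · by_cases hlt : β < ξ
      · apply hm1
        intro η h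
        cases h
        exact ⟨hlt, fun i hi => by cases hi⟩
      · filter_upwards [hm2 (x β) (hlate _ _ (not_lt.mp hlt))] with k hk
        exact Or.inl hk
  filter_upwards [hy] with k hk
  exact hc2 _ hk

end Pool.Agent.H62.Gamma
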