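import Pool.Agent.H62.Gamma.Core

/-!
# The tower
-/

open Set Filter

namespace Pool.Agent.H62.Gamma

variable {I : Type} [LinearOrder I]

/-- data to be handled: a countable family of sets, each given by a clopen set and a finite set of
indices, and a bound for the indices of the points to be treated -/
abbrev Data (I : Type) := (ℕ → Code × Finset I) × Option I

/-- the underlying set of the space -/
abbrev Y (I : Type) := Finset ℕ ⊕ I

/-- the map to the Cantor space -/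
def ev (x : I → Set ℕ) : Y I → Set ℕ := Sum.elim (fun s => (s : Set ℕ)) x

@[simp] lemma ev_inl (x : I → Set ℕ) (s : Finset ℕ) : ev x (Sum.inl s) = (s : Set ℕ) := rfl
@[simp] lemma ev_inr (x : I → Set ℕ) (i : I) : ev x (Sum.inr i) = x i := rfl

/-- the set given by a code -/
def VS (x : I → Set ℕ) (d : Code × Finset I) : Set (Y I) :=
  {y | ev x y ∈ Cl d.1 ∨ ∃ i ∈ d.2, y = Sum.inr i}

/-- the points treated at stage `ξ` -/
def BS (ξ : I) (a : Option I) : Set (Y I) :=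
  {y | ∀ η, y = Sum.inr η → η < ξ ∧ ∀ i, a = some i → η < i}

lemma inl_mem_BS (ξ : I) (a : Option I) (s : Finset ℕ) : Sum.inl s ∈ BS ξ a := by
  intro η h; cases h

lemma countable_BS {ξ : I} (hξ : (Iio ξ).Countable) (a : Option I) : (BS ξ a).Countable := by
  have h1 : (range (Sum.inl : Finset ℕ → Y I)).Countable := countable_range _
  refine (h1.union (hξ.image Sum.inr)).mono ?_
  rintro (s | η) hy
  · exact Or.inl ⟨s, rfl⟩
  · exact Or.inr ⟨η, (hy η rfl).1, rfl⟩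

/-- the requirement at stage `ξ` -/
def Spec (φ : I → Data I) (g : I → Set ℕ) (ξ : I) (x : Set ℕ) : Prop :=
  x.Infinite ∧ (∀ η < ξ, AlmSub x (g η) ∧ (g η \ x).Infinite) ∧
  ((∀ F : Finset (Y I), (F : Set (Y I)) ⊆ BS ξ (φ ξ).2 → ∃ n, (F : Set (Y I)) ⊆ VS g ((φ ξ).1 n)) →
    ∃ m : ℕ → ℕ, (∀ y ∈ BS ξ (φ ξ).2, ∀ᶠ k in atTop, y ∈ VS g ((φ ξ).1 (m k))) ∧
      ∀ z, AlmSub z x → ∀ᶠ k in atTop, z ∈ Cl ((φ ξ).1 (m k)).1)

lemma mem_VS_congr {g g' : I → Set ℕ} {ξ : I} (h : ∀ η < ξ, g η = g' η) {a : Option I}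
    {y : Y I} (hy : y ∈ BS ξ a) (d : Code × Finset I) : y ∈ VS g d ↔ y ∈ VS g' d := by
  have : ev g y = ev g' y := by
    rcases y with s | η
    · rfl
    · exact h η (hy η rfl).1
  unfold VS
  rw [mem_setOf_eq, mem_setOf_eq, this]

lemma Spec.congr {φ : I → Data I} {g g' : I → Set ℕ} {ξ : I} {x : Set ℕ}
    (h : ∀ η < ξ, g η = g' η) (hs : Spec φ g ξ x) : Spec φ g' ξ x := by
  obtain ⟨h1, h2, h3⟩ := hs
  refine ⟨h1, fun η hη => by rw [← h η hη]; exact h2 η hη, fun hc => ?_⟩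
  obtain ⟨m, hm1, hm2⟩ := h3 (fun F hF => by
    obtain ⟨n, hn⟩ := hc F hF
    exact ⟨n, fun y hy => (mem_VS_congr h (hF hy) _).mpr (hn hy)⟩)
  refine ⟨m, fun y hy => ?_, hm2⟩
  filter_upwards [hm1 y hy] with k hk
  exact (mem_VS_congr h hy _).mp hk

lemma exists_spec (φ : I → Data I) (g : I → Set ℕ) (ξ : I) (hξ : (Iio ξ).Countable)
    (hinf : ∀ η < ξ, (g η).Infinite) (hdec : ∀ η η', η < η' → η' < ξ → AlmSub (g η') (g η)) :
    ∃ x, Spec φ g ξ x := by
  have : Countable (Iio ξ) := hξ.to_subtype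
  obtain ⟨y0, hy0, hy0'⟩ := pseudo (ι := Iio ξ) (fun η => g η.1) (fun η => hinf η.1 η.2)
    (fun i j hij => hdec i.1 j.1 hij j.2)
  obtain ⟨y', hy'1, hy'2, hy'3⟩ : ∃ y' ⊆ y0, y'.Infinite ∧
      ((∀ F : Finset (Y I), (F : Set (Y I)) ⊆ BS ξ (φ ξ).2 →
        ∃ n, (F : Set (Y I)) ⊆ VS g ((φ ξ).1 n)) →
      ∃ m : ℕ → ℕ, (∀ y ∈ BS ξ (φ ξ).2, ∀ᶠ k in atTop, y ∈ VS g ((φ ξ).1 (m k))) ∧
      ∀ z, AlmSub z y' → ∀ᶠ k in atTop, z ∈ Cl ((φ ξ).1 (m k)).1) := by
    by_cases hc : ∀ F : Finset (Y I), (F : Set (Y I)) ⊆ BS ξ (φ ξ).2 →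
        ∃ n, (F : Set (Y I)) ⊆ VS g ((φ ξ).1 n)
    · obtain ⟨b, hb⟩ := (countable_BS hξ (φ ξ).2).exists_eq_range ⟨_, inl_mem_BS ξ _ ∅⟩
      obtain ⟨y', h1, h2, m, h3, h4⟩ := step b (fun n => VS g ((φ ξ).1 n))
        (fun n => ((φ ξ).1 n).1) (by
          intro j T
          classical
          obtain ⟨n, hn⟩ := hc ((Finset.range (j + 1)).image b ∪ T.image Sum.inl) (by
            intro y hy
            rw [Finset.coe_union, Finset.coe_image, Finset.coe_image] at hy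
            rcases hy with ⟨i, -, rfl⟩ | ⟨s, -, rfl⟩
            · rw [hb]; exact ⟨i, rfl⟩
            · exact inl_mem_BS _ _ _)
          refine ⟨n, fun i hi => hn ?_, fun s hs => ?_⟩
          · rw [Finset.coe_union, Finset.coe_image]
            exact Or.inl ⟨i, by simpa using Nat.lt_succ_of_le hi, rfl⟩
          · have : (Sum.inl s : Y I) ∈ VS g ((φ ξ).1 n) := by
              apply hn
              rw [Finset.coe_union, Finset.coe_image, Finset.coe_image]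
              exact Or.inr ⟨s, hs, rfl⟩
            rcases this with h | ⟨i, -, h⟩
            · exact h
            · cases h) hy0
      refine ⟨y', h1, h2, fun _ => ⟨m, fun y hy => ?_, h4⟩⟩
      rw [hb] at hy
      obtain ⟨i, rfl⟩ := hy
      exact h3 i
    · exact ⟨y0, subset_rfl, hy0, fun h => absurd h hc⟩
  obtain ⟨x, hx1, hx2, hx3⟩ := split hy'2
  refine ⟨x, hx2, fun η hη => ⟨?_, ?_⟩, fun hc => ?_⟩
  · exact (AlmSub.of_subset (hx1.trans hy'1)).trans (hy0' ⟨η, hη⟩)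
  · have h1 : AlmSub y' (g η) := (AlmSub.of_subset hy'1).trans (hy0' ⟨η, hη⟩)
    refine (hx3.sdiff h1).mono ?_
    rintro n ⟨⟨h2, h3⟩, h4⟩
    refine ⟨?_, h3⟩
    by_contra hcon
    exact h4 ⟨h2, hcon⟩
  · obtain ⟨m, hm1, hm2⟩ := hy'3 hc
    exact ⟨m, hm1, fun z hz => hm2 z (hz.trans (AlmSub.of_subset hx1))⟩

/-- existence of the tower -/
theorem exists_tower [WellFoundedLT I] (hI : ∀ i : I, (Iio i).Countable) (φ : I → Data I) :
    ∃ x : I → Set ℕ, ∀ ξ, Spec φ x ξ (x ξ) := by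
  classical
  let ext : ∀ ξ : I, (∀ η, η < ξ → Set ℕ) → I → Set ℕ := fun ξ f η =>
    if h : η < ξ then f η h else ∅
  let st : ∀ ξ : I, (∀ η, η < ξ → Set ℕ) → Set ℕ := fun ξ f =>
    if h : ∃ x, Spec φ (ext ξ f) ξ x then h.choose else ∅
  let x : I → Set ℕ := WellFoundedLT.fix st
  have hx : ∀ ξ, x ξ = st ξ (fun η _ => x η) := fun ξ => WellFoundedLT.fix_eq st ξ
  refine ⟨x, fun ξ => ?_⟩
  induction ξ using WellFoundedLT.induction with
  | ind ξ ih =>
    have hex : ∃ z, Spec φ (ext ξ (fun η _ => x η)) ξ z := by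
      apply exists_spec _ _ _ (hI ξ)
      · intro η hη
        simp only [ext, dif_pos hη]
        exact (ih η hη).1
      · intro η η' h1 h2
        simp only [ext, dif_pos h2, dif_pos (h1.trans h2)]
        exact ((ih η' h2).2.1 η h1).1
    have h1 : x ξ = hex.choose := by
      rw [hx ξ]
      simp only [st]
      rw [dif_pos hex]
    rw [h1]
    apply Spec.congr _ hex.choose_spec
    intro η hη
    simp only [ext, dif_pos hη]

end Pool.Agent.H62.Gamma
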